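import Mathlib

/-!
Leading terms of units congruent to one, and the rank of congruence subgroups of two by two
matrices.
-/

namespace Pool.Agent.FS.WordDep

variable {R V : Type} [Ring R] [Ring V] {ρ : R →+* V} {n : ℕ}

/-- The unit `x` is `1 + n ^ i B` with `B` reducing to `A`. -/
def Ld (ρ : R →+* V) (n i : ℕ) (x : Rˣ) (A : V) : Prop :=
  ∃ B : R, (x : R) = 1 + n ^ i • B ∧ ρ B = A

theorem rho_pow (hn : ∀ v : V, n • v = 0) {i : ℕ} (hi : 1 ≤ i) (B : R) : ρ (n ^ i • B) = 0 := by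
  obtain ⟨k, rfl⟩ := Nat.exists_eq_add_of_le' hi
  rw [map_nsmul, pow_succ, mul_smul, hn, smul_zero]

theorem Ld.rho_inv (hn : ∀ v : V, n • v = 0) {i : ℕ} (hi : 1 ≤ i) {x : Rˣ} {A : V}
    (h : Ld ρ n i x A) : ρ (x⁻¹ : Rˣ) = 1 := by
  obtain ⟨B, h1, -⟩ := h
  have e : ρ (x : R) = 1 := by rw [h1, map_add, map_one, rho_pow hn hi, add_zero]
  have := congrArg ρ x.mul_inv
  rwa [map_mul, e, one_mul, map_one] at this

theorem ld_one (i : ℕ) : Ld ρ n i 1 0 := ⟨0, by simp, map_zero _⟩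

theorem Ld.mul (hn : ∀ v : V, n • v = 0) {i : ℕ} (hi : 1 ≤ i) {x y : Rˣ} {A A' : V}
    (h : Ld ρ n i x A) (h' : Ld ρ n i y A') : Ld ρ n i (x * y) (A + A') := by
  obtain ⟨B, h1, rfl⟩ := h
  obtain ⟨B', h2, rfl⟩ := h'
  refine ⟨B + B' + n ^ i • (B * B'), ?_, by rw [map_add, map_add, rho_pow hn hi, add_zero]⟩
  rw [Units.val_mul, h1, h2]
  simp only [mul_add, add_mul, smul_mul_assoc, mul_smul_comm, one_mul, mul_one]
  module

theorem Ld.inv (hn : ∀ v : V, n • v = 0) {i : ℕ} (hi : 1 ≤ i) {x : Rˣ} {A : V}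
    (h : Ld ρ n i x A) : Ld ρ n i x⁻¹ (-A) := by
  have e := h.rho_inv hn hi
  obtain ⟨B, h1, rfl⟩ := h
  refine ⟨-(B * (x⁻¹ : Rˣ)), ?_, by rw [map_neg, map_mul, e, mul_one]⟩
  have := x.mul_inv
  rw [h1, add_mul, one_mul, smul_mul_assoc] at this
  rw [smul_neg, ← sub_eq_add_neg, eq_sub_iff_add_eq, this]

theorem Ld.pow (hn : ∀ v : V, n • v = 0) {i : ℕ} (hi : 1 ≤ i) {x : Rˣ} {A : V}
    (h : Ld ρ n i x A) (k : ℕ) : Ld ρ n i (x ^ k) (k • A) := by
  induction k with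
  | zero => simpa using ld_one i
  | succ k ih => rw [pow_succ, succ_nsmul]; exact ih.mul hn hi h

theorem Ld.comm (hn : ∀ v : V, n • v = 0) {i j : ℕ} (hi : 1 ≤ i) (hj : 1 ≤ j) {x y : Rˣ}
    {A A' : V} (h : Ld ρ n i x A) (h' : Ld ρ n j y A') :
    Ld ρ n (i + j) (x * y * x⁻¹ * y⁻¹) (A * A' - A' * A) := by
  have e := h.rho_inv hn hi
  have e' := h'.rho_inv hn hj
  obtain ⟨B, h1, rfl⟩ := h
  obtain ⟨B', h2, rfl⟩ := h'
  refine ⟨(B * B' - B' * B) * (x⁻¹ : Rˣ) * (y⁻¹ : Rˣ), ?_, by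
    rw [map_mul, map_mul, e, e', mul_one, mul_one, map_sub, map_mul, map_mul]⟩
  have k : (x : R) * y = y * x + n ^ (i + j) • (B * B' - B' * B) := by
    rw [h1, h2]
    simp only [mul_add, add_mul, smul_mul_assoc, mul_smul_comm, one_mul, mul_one, pow_add]
    module
  rw [Units.val_mul, Units.val_mul, Units.val_mul, k, add_mul, add_mul, Units.mul_inv_cancel_right,
    Units.mul_inv, smul_mul_assoc, smul_mul_assoc]

theorem Ld.up (hk : ∀ B : R, ρ B = 0 → ∃ C, B = n • C) {i : ℕ} {x : Rˣ} (h : Ld ρ n i x 0) :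
    ∃ A, Ld ρ n (i + 1) x A := by
  obtain ⟨B, h1, h2⟩ := h
  obtain ⟨C, rfl⟩ := hk B h2
  exact ⟨_, C, by rw [h1, pow_succ, mul_smul], rfl⟩

theorem Ld.frob (hn : ∀ v : V, n • v = 0) {i : ℕ} {x : Rˣ} {A : V}
    (h : Ld ρ n (i + 2) x A) : Ld ρ n (i + 3) (x ^ n) A := by
  obtain ⟨B, h1, rfl⟩ := h
  have key : ∀ (y : R) (k : ℕ), ∃ C, (1 + y) ^ k = 1 + k • y + y * y * C := by
    intro y k
    induction k with
    | zero => exact ⟨0, by simp⟩
    | succ k ih =>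
      obtain ⟨C, hC⟩ := ih
      refine ⟨k • 1 + C * (1 + y), ?_⟩
      rw [pow_succ, hC]
      simp only [mul_add, add_mul, smul_mul_assoc, mul_smul_comm, one_mul, mul_one, mul_assoc]
      module
  obtain ⟨C, hC⟩ := key (n ^ (i + 2) • B) n
  refine ⟨B + n ^ (i + 1) • (B * B * C), ?_, by rw [map_add, rho_pow hn (by omega), add_zero]⟩
  rw [Units.val_pow_eq_pow_val, h1, hC]
  simp only [smul_mul_assoc, mul_smul_comm]
  module

theorem Ld.eq_one {N : ℕ} (hN : ∀ B : R, n ^ N • B = 0) {x : Rˣ} {A : V} (h : Ld ρ n N x A) :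
    x = 1 := by
  obtain ⟨B, h1, -⟩ := h
  exact Units.ext (by rw [h1, hN, add_zero, Units.val_one])

section Rank

variable {p : ℕ} [Fact p.Prime] {Γ : Type} [Group Γ]

theorem p_smul (v : Matrix (Fin 2) (Fin 2) (ZMod n)) : n • v = 0 := by
  rw [← Nat.cast_smul_eq_nsmul (ZMod n), ZMod.natCast_self, zero_smul]

/-- The leading terms at level `i + 2` of the elements of a subgroup. -/
def Vs (σ : R →+* Matrix (Fin 2) (Fin 2) (ZMod p)) (f : Γ →* Rˣ) (i : ℕ) (K : Subgroup Γ) :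
    Submodule (ZMod p) (Matrix (Fin 2) (Fin 2) (ZMod p)) where
  carrier := {A | ∃ k ∈ K, Ld σ p (i + 2) (f k) A}
  zero_mem' := ⟨1, K.one_mem, by rw [map_one]; exact ld_one _⟩
  add_mem' := by
    rintro _ _ ⟨k, hk, h⟩ ⟨k', hk', h'⟩
    exact ⟨k * k', K.mul_mem hk hk', by rw [map_mul]; exact h.mul p_smul (by omega) h'⟩
  smul_mem' := by
    rintro c A ⟨k, hk, h⟩
    refine ⟨k ^ c.val, K.pow_mem hk _, ?_⟩
    have := h.pow p_smul (by omega) c.val
    rw [← Nat.cast_smul_eq_nsmul (ZMod p), ZMod.natCast_zmod_val] at this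
    rwa [map_pow]

variable {σ : R →+* Matrix (Fin 2) (Fin 2) (ZMod p)} {f : Γ →* Rˣ}

theorem vs_mono (i : ℕ) {K K' : Subgroup Γ} (h : K ≤ K') : Vs σ f i K ≤ Vs σ f i K' :=
  fun _ ⟨k, hk, hA⟩ => ⟨k, h hk, hA⟩

theorem vs_succ (i : ℕ) (K : Subgroup Γ) : Vs σ f i K ≤ Vs σ f (i + 1) K :=
  fun _ ⟨k, hk, hA⟩ => ⟨k ^ p, K.pow_mem hk _, by rw [map_pow]; exact hA.frob p_smul⟩

theorem vs_le {i : ℕ} (h : ∀ g A, Ld σ p (i + 2) (f g) A → A 0 0 + A 1 1 = 0) (K : Subgroup Γ) :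
    Module.finrank (ZMod p) (Vs σ f i K) ≤ 3 := by
  have h1 : Vs σ f i K < ⊤ := lt_top_iff_ne_top.2 fun e => by
    obtain ⟨k, -, hk⟩ : !![1, 0; 0, 0] ∈ Vs σ f i K := e ▸ Submodule.mem_top
    simpa using h k _ hk
  have h2 := Submodule.finrank_lt h1.ne
  simp [Module.finrank_matrix] at h2
  omega

theorem fill (i : ℕ) (ht : ∀ g A, Ld σ p (i + 2) (f g) A → A 0 0 + A 1 1 = 0) (H : Subgroup Γ)
    (d : ℕ) : ∀ s : Finset Γ, (s : Set Γ) ⊆ H → 3 ≤ s.card + d →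
    s.card ≤ Module.finrank (ZMod p) (Vs σ f i (Subgroup.closure (s : Set Γ))) →
    ∃ t : Finset Γ, s ⊆ t ∧ (t : Set Γ) ⊆ H ∧
      t.card ≤ Module.finrank (ZMod p) (Vs σ f i (Subgroup.closure (t : Set Γ))) ∧
      Vs σ f i H ≤ Vs σ f i (Subgroup.closure (t : Set Γ)) := by
  classical
  induction d with
  | zero =>
    intro s hs h4 hc
    refine ⟨s, subset_rfl, hs, hc, (Submodule.eq_of_le_of_finrank_le
      (vs_mono i ((Subgroup.closure_le H).2 hs)) ?_).ge⟩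
    have := vs_le ht H
    omega
  | succ d ih =>
    intro s hs h4 hc
    by_cases h : Vs σ f i H ≤ Vs σ f i (Subgroup.closure (s : Set Γ))
    · exact ⟨s, subset_rfl, hs, hc, h⟩
    · obtain ⟨A, ⟨k, hk, hA⟩, hn⟩ := SetLike.not_le_iff_exists.1 h
      have ks : k ∉ s := fun c => hn ⟨k, Subgroup.subset_closure c, hA⟩
      have lt : Vs σ f i (Subgroup.closure (s : Set Γ)) <
          Vs σ f i (Subgroup.closure ((insert k s : Finset Γ) : Set Γ)) :=
        lt_of_le_of_ne (vs_mono i (Subgroup.closure_mono (by simp))) fun e => hn (by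
          rw [e]; exact ⟨k, Subgroup.subset_closure (by simp), hA⟩)
      have := Submodule.finrank_lt_finrank_of_lt lt
      obtain ⟨t, t1, t2⟩ := ih (insert k s) (by simpa [Set.insert_subset_iff] using ⟨hk, hs⟩)
        (by rw [Finset.card_insert_of_notMem ks]; omega)
        (by rw [Finset.card_insert_of_notMem ks]; omega)
      exact ⟨t, (Finset.subset_insert _ _).trans t1, t2⟩

theorem rank_le (hk : ∀ B : R, σ B = 0 → ∃ C, B = p • C) {N : ℕ}
    (hN : ∀ B : R, p ^ (N + 2) • B = 0) (hf : Function.Injective f)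
    (h2 : ∀ g, ∃ A, Ld σ p 2 (f g) A)
    (ht : ∀ i < N, ∀ g A, Ld σ p (i + 2) (f g) A → A 0 0 + A 1 1 = 0) (H : Subgroup Γ) :
    ∃ s : Finset Γ, s.card ≤ 3 ∧ Subgroup.closure (s : Set Γ) = H := by
  have all : ∀ i, i ≤ N → ∃ t : Finset Γ, (t : Set Γ) ⊆ H ∧ t.card ≤ 3 ∧
      t.card ≤ Module.finrank (ZMod p) (Vs σ f i (Subgroup.closure (t : Set Γ))) ∧
      ∀ k < i, Vs σ f k H ≤ Vs σ f k (Subgroup.closure (t : Set Γ)) := by
    intro i
    induction i with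
    | zero => exact fun _ => ⟨∅, by simp, by simp, by simp, fun k hk => absurd hk (by omega)⟩
    | succ i ih =>
      intro hi
      obtain ⟨s, s1, -, s2, s3⟩ := ih (by omega)
      obtain ⟨t, t1, t2, t3, t4⟩ := fill i (ht i hi) H 3 s s1 (by omega) s2
      refine ⟨t, t2, t3.trans (vs_le (ht i hi) _), t3.trans (Submodule.finrank_mono (vs_succ i _)),
        fun k hk => ?_⟩
      rcases Nat.lt_succ_iff_lt_or_eq.1 hk with h | rfl
      · exact (s3 k h).trans (vs_mono k (Subgroup.closure_mono (by exact_mod_cast t1)))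
      · exact t4
  obtain ⟨t, t1, t2, -, t3⟩ := all N le_rfl
  have le : Subgroup.closure (t : Set Γ) ≤ H := (Subgroup.closure_le H).2 t1
  refine ⟨t, t2, le_antisymm le ?_⟩
  have down : ∀ d k, k + d = N → ∀ g ∈ H, ∀ A, Ld σ p (k + 2) (f g) A →
      g ∈ Subgroup.closure (t : Set Γ) := by
    intro d
    induction d with
    | zero =>
      intro k e g _ A hA
      obtain rfl : k = N := e
      obtain rfl : g = 1 := hf (by rw [map_one]; exact hA.eq_one hN)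
      exact Subgroup.one_mem _
    | succ d ih =>
      intro k e g hg A hA
      obtain ⟨g', hg', hA'⟩ := t3 k (by omega) ⟨g, hg, hA⟩
      have z := hA.mul p_smul (by omega) (hA'.inv p_smul (by omega))
      rw [add_neg_cancel, ← map_inv, ← map_mul] at z
      obtain ⟨A', h'⟩ := z.up hk
      have := ih (k + 1) (by omega) _ (H.mul_mem hg (H.inv_mem (le hg'))) A' h'
      simpa using Subgroup.mul_mem _ this hg'
  intro g hg
  obtain ⟨A, hA⟩ := h2 g
  exact down N 0 (by omega) g hg A hA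

end Rank

theorem ker_cast {M : ℕ} [NeZero M] (h : n ∣ M) (B : Matrix (Fin 2) (Fin 2) (ZMod M))
    (hB : (ZMod.castHom h (ZMod n)).mapMatrix B = 0) : ∃ C, B = n • C := by
  have : ∀ i j, ∃ c : ZMod M, B i j = n • c := by
    intro i j
    have e : ZMod.castHom h (ZMod n) (B i j) = 0 := congrFun (congrFun hB i) j
    rw [← ZMod.natCast_zmod_val (B i j), map_natCast, ZMod.natCast_eq_zero_iff] at e
    obtain ⟨c, hc⟩ := e
    exact ⟨c, by rw [← ZMod.natCast_zmod_val (B i j), hc, nsmul_eq_mul, Nat.cast_mul]⟩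
  choose C hC using this
  exact ⟨Matrix.of C, by ext i j; exact hC i j⟩

theorem ld_unique {q c : ℕ} [NeZero q] (h : q ∣ q ^ (c + 1))
    {x : (Matrix (Fin 2) (Fin 2) (ZMod (q ^ (c + 1))))ˣ} {A A' : Matrix (Fin 2) (Fin 2) (ZMod q)}
    (h1 : Ld (ZMod.castHom h (ZMod q)).mapMatrix q c x A)
    (h2 : Ld (ZMod.castHom h (ZMod q)).mapMatrix q c x A') : A = A' := by
  obtain ⟨B, e1, rfl⟩ := h1
  obtain ⟨B', e2, rfl⟩ := h2
  rw [← sub_eq_zero, ← map_sub]
  have e : q ^ c • (B - B') = 0 := by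
    rw [smul_sub, sub_eq_zero]; exact add_left_cancel (e1.symm.trans e2)
  ext i j
  have e' : q ^ c • (B - B') i j = 0 := congrFun (congrFun e i) j
  change ZMod.castHom h (ZMod q) ((B - B') i j) = 0
  generalize (B - B') i j = b at e' ⊢
  rw [← ZMod.natCast_zmod_val b, nsmul_eq_mul, ← Nat.cast_mul, ZMod.natCast_eq_zero_iff] at e'
  rw [← ZMod.natCast_zmod_val b, map_natCast, ZMod.natCast_eq_zero_iff]
  exact (Nat.mul_dvd_mul_iff_left (pow_pos (NeZero.pos q) c)).1 ((pow_succ q c).symm.dvd.trans e')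

theorem trace_zero {p M i : ℕ} [NeZero M] (hp : 0 < p) (h : p ∣ M) (hi : 1 ≤ i)
    (hM : p ^ (i + 1) ∣ M) {x : (Matrix (Fin 2) (Fin 2) (ZMod M))ˣ}
    (hx : (x : Matrix (Fin 2) (Fin 2) (ZMod M)).det = 1) {A : Matrix (Fin 2) (Fin 2) (ZMod p)}
    (hA : Ld (ZMod.castHom h (ZMod p)).mapMatrix p i x A) : A 0 0 + A 1 1 = 0 := by
  obtain ⟨B, e, rfl⟩ := hA
  have e1 : (p ^ i : ℕ) * (B 0 0 + B 1 1 + (p ^ i : ℕ) * B.det) = 0 := by
    rw [e, Matrix.det_fin_two] at hx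
    rw [Matrix.det_fin_two]
    simp only [Matrix.add_apply, Matrix.smul_apply, Matrix.one_apply_eq,
      Matrix.one_apply_ne (show (0 : Fin 2) ≠ 1 by decide),
      Matrix.one_apply_ne (show (1 : Fin 2) ≠ 0 by decide)] at hx
    simp only [nsmul_eq_mul] at hx
    linear_combination hx
  have e2 : ∀ b : ZMod M, (p ^ i : ℕ) * b = 0 → ZMod.castHom h (ZMod p) b = 0 := by
    intro b hb
    rw [← ZMod.natCast_zmod_val b, ← Nat.cast_mul, ZMod.natCast_eq_zero_iff] at hb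
    rw [← ZMod.natCast_zmod_val b, map_natCast, ZMod.natCast_eq_zero_iff]
    exact (Nat.mul_dvd_mul_iff_left (pow_pos hp i)).1
      (((pow_succ p i).symm.dvd.trans hM).trans hb)
  have e3 := e2 _ e1
  have e4 : ((p ^ i : ℕ) : ZMod p) = 0 :=
    (ZMod.natCast_eq_zero_iff _ _).2 (dvd_pow_self p (by omega))
  rw [map_add, map_mul, map_natCast, e4, zero_mul, add_zero, map_add] at e3
  exact e3

end Pool.Agent.FS.WordDep
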