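import Pool.Agent.FS.WordDep.Lead

/-!
A word with few values.
-/

namespace Pool.Agent.FS.WordDep

/-- The commutator. -/
def cm {G : Type} [Group G] (a b : G) : G := a * b * a⁻¹ * b⁻¹

/-- The words, defined by a recurrence of order two. -/
def wn {G : Type} [Group G] (x y : G) : ℕ → G
  | 0 => cm x y ^ 4
  | 1 => cm x (cm y (cm x y ^ 4)) ^ 2
  | n + 2 => cm x (cm y (wn x y (n + 1))) ^ 2 * (cm x (cm x (cm y (cm y (wn x y n)))))⁻¹

theorem map_cm {G G' : Type} [Group G] [Group G'] (f : G →* G') (a b : G) :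
    f (cm a b) = cm (f a) (f b) := by simp [cm]

theorem map_wn {G G' : Type} [Group G] [Group G'] (f : G →* G') (x y : G) :
    ∀ n, f (wn x y n) = wn (f x) (f y) n
  | 0 => by simp only [wn, map_cm, map_pow]
  | 1 => by simp only [wn, map_cm, map_pow]
  | n + 2 => by simp only [wn, map_cm, map_pow, map_mul, map_inv, map_wn f x y n, map_wn f x y (n + 1)]

variable {R : Type} [Ring R] {q : ℕ} {ρ : R →+* Matrix (Fin 2) (Fin 2) (ZMod q)}

theorem ld_two {x y z : Rˣ} {a b c d E : ZMod q} {i : ℕ} (hi : 1 ≤ i)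
    (hx : Ld ρ q 1 x !![0, a; b, 0]) (hy : Ld ρ q 1 y !![0, c; d, 0])
    (hz : Ld ρ q i z !![E, 0; 0, -E]) :
    Ld ρ q (i + 2) (cm x (cm y z)) !![2 * (a * d + b * c) * E, 0; 0, -(2 * (a * d + b * c) * E)] := by
  have h1 := hx.comm p_smul le_rfl (by omega) (hy.comm p_smul le_rfl hi hz)
  have e : 1 + (1 + i) = i + 2 := by ring
  rw [e] at h1
  convert h1 using 1
  · rfl
  · ext i k
    fin_cases i <;> fin_cases k <;> simp [Matrix.mul_apply, Fin.sum_univ_two] <;> ring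

theorem ld_wn {x y : Rˣ} {a b c d : ZMod q} (hx : Ld ρ q 1 x !![0, a; b, 0])
    (hy : Ld ρ q 1 y !![0, c; d, 0]) : ∀ n, Ld ρ q (2 * n + 2) (wn x y n)
      !![4 ^ (n + 1) * ((a * d) ^ (n + 1) - (b * c) ^ (n + 1)), 0;
        0, -(4 ^ (n + 1) * ((a * d) ^ (n + 1) - (b * c) ^ (n + 1)))]
  | 0 => by
    convert (hx.comm p_smul le_rfl le_rfl hy).pow p_smul (by omega) 4 using 1
    · rfl
    · ext i k
      fin_cases i <;> fin_cases k <;> simp [Matrix.mul_apply, Fin.sum_univ_two] <;> ring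
  | 1 => by
    convert (ld_two (by omega) hx hy (ld_wn hx hy 0)).pow p_smul (by omega) 2 using 1
    · rfl
    · ext i k
      fin_cases i <;> fin_cases k <;> simp <;> ring
  | n + 2 => by
    have h1 := (ld_two (by omega) hx hy (ld_wn hx hy (n + 1))).pow p_smul (by omega) 2
    have h2 := (ld_two (by omega) hx hx (ld_two (by omega) hy hy (ld_wn hx hy n))).inv p_smul
      (by omega)
    have h3 : Ld ρ q (2 * (n + 2) + 2) (wn x y (n + 2)) _ := h1.mul p_smul (by omega) h2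
    convert h3 using 1
    ext i k
    fin_cases i <;> fin_cases k <;> simp <;> ring

/-- The units whose leading term at level one has zero diagonal. -/
def Grp (ρ : R →+* Matrix (Fin 2) (Fin 2) (ZMod q)) : Subgroup Rˣ where
  carrier := {x | ∃ a b : ZMod q, Ld ρ q 1 x !![0, a; b, 0]}
  one_mem' := ⟨0, 0, by
    convert ld_one (ρ := ρ) (n := q) 1 using 1
    ext i k; fin_cases i <;> fin_cases k <;> simp⟩
  mul_mem' := by
    rintro x y ⟨a, b, h⟩ ⟨c, d, h'⟩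
    refine ⟨a + c, b + d, ?_⟩
    convert h.mul p_smul le_rfl h' using 1
    ext i k; fin_cases i <;> fin_cases k <;> simp
  inv_mem' := by
    rintro x ⟨a, b, h⟩
    refine ⟨-a, -b, ?_⟩
    convert h.inv p_smul le_rfl using 1
    ext i k; fin_cases i <;> fin_cases k <;> simp

theorem pow_eq_one_of_ld (hk : ∀ B : R, ρ B = 0 → ∃ C, B = q • C) {c : ℕ}
    (hN : ∀ B : R, q ^ (c + 1) • B = 0) {x : Rˣ} {A : Matrix (Fin 2) (Fin 2) (ZMod q)}
    (h : Ld ρ q 1 x A) : x ^ q ^ c = 1 := by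
  have : ∀ k, ∃ A, Ld ρ q (k + 1) (x ^ q ^ k) A := by
    intro k
    induction k with
    | zero => exact ⟨A, by simpa using h⟩
    | succ k ih =>
      obtain ⟨A', h'⟩ := ih
      have z := h'.pow p_smul (by omega) q
      rw [p_smul, ← pow_mul, ← pow_succ] at z
      exact z.up hk
  obtain ⟨A', h'⟩ := this c
  exact h'.eq_one hN

theorem few [NeZero q] {p k : ℕ} (hp : 0 < p) {C : ZMod q} (hC : C * (p : ZMod q) ^ k = 0)
    (D : ZMod q) : ∃ t : Fin p, C * D ^ p ^ k = C * ((t : ℕ) : ZMod q) ^ p ^ k := by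
  refine ⟨⟨D.val % p, Nat.mod_lt _ hp⟩, ?_⟩
  have h : (p : ZMod q) ∣ D - ((D.val % p : ℕ) : ZMod q) := by
    refine ⟨((D.val / p : ℕ) : ZMod q), ?_⟩
    rw [sub_eq_iff_eq_add, ← Nat.cast_mul, ← Nat.cast_add, Nat.div_add_mod, ZMod.natCast_zmod_val]
  obtain ⟨z, hz⟩ := dvd_sub_pow_of_dvd_sub h k
  rw [← sub_eq_zero, ← mul_sub, hz]
  linear_combination (p * z) * hC

theorem exists_level {p : ℕ} (hp : p.Prime) (N k : ℕ) : ∃ s, p ^ (s + 2) ∣ 4 ^ N * p ^ (k + 2) ∧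
    ∀ a b : ℕ, a * 4 ^ N ≡ b * 4 ^ N [MOD p ^ (s + 2)] → a ≡ b [MOD p ^ (k + 2)] := by
  by_cases h : p = 2
  · subst h
    have e : 2 ^ (2 * N + k + 2) = 2 ^ (k + 2) * 4 ^ N := by
      rw [show (4 : ℕ) = 2 ^ 2 by norm_num, ← pow_mul, ← pow_add]; congr 1; ring
    refine ⟨2 * N + k, by rw [e, mul_comm], fun a b hab => ?_⟩
    rw [e] at hab
    exact Nat.ModEq.mul_right_cancel' (by positivity) hab
  · refine ⟨k, Dvd.intro_left _ rfl, fun a b hab => Nat.ModEq.cancel_right_of_coprime ?_ hab⟩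
    rw [show (4 : ℕ) = 2 ^ 2 by norm_num, ← pow_mul]
    exact Nat.Coprime.pow _ _ ((Nat.coprime_primes hp Nat.prime_two).2 h)

open Pointwise in
theorem ld_list {c : ℕ} (hc : 1 ≤ c) {T : Finset (ZMod q)} (h0 : 0 ∈ T) (l : List Rˣ) :
    ∀ m, l.length ≤ m → (∀ y ∈ l, ∃ A, Ld ρ q c y A ∧ A 0 0 ∈ T) →
      ∃ A, Ld ρ q c l.prod A ∧ A 0 0 ∈ m • T := by
  induction l with
  | nil => exact fun m _ _ => ⟨0, ld_one _, Finset.zero_mem_nsmul h0⟩
  | cons y l ih =>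
    intro m hm h
    obtain ⟨m, rfl⟩ : ∃ k, m = k + 1 := ⟨m - 1, by simp at hm; omega⟩
    obtain ⟨A, h1, h2⟩ := h y (by simp)
    obtain ⟨A', h3, h4⟩ := ih m (by simpa using hm) fun z hz => h z (by simp [hz])
    refine ⟨A + A', by rw [List.prod_cons]; exact h1.mul p_smul hc h3, ?_⟩
    rw [succ_nsmul']
    exact Finset.add_mem_add h2 h4

theorem ld_unit (E : R) (hE : E * E = 0) : ∃ x : Rˣ, (x : R) = 1 + q ^ 1 • E := by
  refine ⟨⟨1 + q ^ 1 • E, 1 - q ^ 1 • E, ?_, ?_⟩, rfl⟩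
  · rw [add_mul, mul_sub, mul_sub, smul_mul_assoc, smul_mul_assoc, mul_smul_comm,
      mul_smul_comm, hE]
    simp
  · rw [sub_mul, mul_add, mul_add, smul_mul_assoc, smul_mul_assoc, mul_smul_comm,
      mul_smul_comm, hE]
    simp

theorem ld_gens {M : ℕ} (φ : ZMod M →+* ZMod q) :
    (∃ x : (Matrix (Fin 2) (Fin 2) (ZMod M))ˣ, Ld φ.mapMatrix q 1 x !![0, 1; 0, 0] ∧
      (x : Matrix (Fin 2) (Fin 2) (ZMod M)).det = 1) ∧
      ∃ y : (Matrix (Fin 2) (Fin 2) (ZMod M))ˣ, Ld φ.mapMatrix q 1 y !![0, 0; 1, 0] ∧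
        (y : Matrix (Fin 2) (Fin 2) (ZMod M)).det = 1 := by
  constructor
  · obtain ⟨x, hx⟩ := ld_unit (q := q) (!![0, 1; 0, 0] : Matrix (Fin 2) (Fin 2) (ZMod M)) (by
      ext i k; fin_cases i <;> fin_cases k <;> simp [Matrix.mul_apply, Fin.sum_univ_two])
    refine ⟨x, ⟨_, hx, ?_⟩, by rw [hx, Matrix.det_fin_two]; simp⟩
    ext i k; fin_cases i <;> fin_cases k <;> simp
  · obtain ⟨x, hx⟩ := ld_unit (q := q) (!![0, 0; 1, 0] : Matrix (Fin 2) (Fin 2) (ZMod M)) (by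
      ext i k; fin_cases i <;> fin_cases k <;> simp [Matrix.mul_apply, Fin.sum_univ_two])
    refine ⟨x, ⟨_, hx, ?_⟩, by rw [hx, Matrix.det_fin_two]; simp⟩
    ext i k; fin_cases i <;> fin_cases k <;> simp

/-- The units of determinant one. -/
def Sl (M : ℕ) : Subgroup (Matrix (Fin 2) (Fin 2) (ZMod M))ˣ where
  carrier := {x | (x : Matrix (Fin 2) (Fin 2) (ZMod M)).det = 1}
  one_mem' := by simp
  mul_mem' := by
    intro x y hx hy
    simp only [Set.mem_ofPred_eq] at hx hy ⊢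
    rw [Units.val_mul, Matrix.det_mul, hx, hy, mul_one]
  inv_mem' := by
    intro x hx
    simp only [Set.mem_ofPred_eq] at hx ⊢
    have := congrArg Matrix.det x.mul_inv
    rwa [Matrix.det_mul, hx, one_mul, Matrix.det_one] at this

theorem smul_aux' (p m : ℕ) (B : R) : (p ^ (m + 2)) ^ 1 • B = p ^ 2 • p ^ m • B := by
  rw [pow_one, smul_smul, ← pow_add, add_comm]

end Pool.Agent.FS.WordDep
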